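import Pool.Agent.Q27.FJT.AscTypes
import Pool.Agent.Q27.TRC.Main

/-!
# Kernels with non-invariant series
-/

set_option autoImplicit false

namespace Q27.HKN

open Pool.Agent.Y110.FJ (ClosedE)
open Pool.Agent.Y462.SS (Closed)
open Q30.FJ (ClosedOver ClosedF)
open Q181.MCL (VSol UW)
open Q27.TE (LocFin Kind fac Asc)

variable {C D : ∀ (G : Type) [Group G], Prop}

/-- every group in which `K` is normal with cyclic quotient is in the class -/
def Ker (C : ∀ (G : Type) [Group G], Prop) (K : Type) [Group K] : Prop :=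
  ∀ (V : Type) [Group V] (L : Subgroup V) [L.Normal] (c : V), L ⊔ Subgroup.zpowers c = ⊤ →
    Nonempty (L ≃* K) → C V

/-- all subgroups satisfy `Ker` -/
def HKer (C : ∀ (G : Type) [Group G], Prop) (K : Type) [Group K] : Prop :=
  ∀ S : Subgroup K, Ker C S

theorem Ker.equiv {K K' : Type} [Group K] [Group K'] (h : Ker C K) (e : K ≃* K') : Ker C K' :=
  fun V _ L _ c hc ⟨f⟩ => h V L c hc ⟨f.trans e.symm⟩

theorem HKer.of_inj {K K' : Type} [Group K] [Group K'] (h : HKer C K) (f : K' →* K)
    (hf : Function.Injective f) : HKer C K' :=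
  fun S => (h (S.map f)).equiv (S.equivMapOfInjective f hf).symm

theorem HKer.ker {K : Type} [Group K] (h : HKer C K) : Ker C K :=
  (h ⊤).equiv Subgroup.topEquiv

theorem Ker.self {K : Type} [Group K] (h : Ker C K) : C K :=
  h K ⊤ 1 (top_sup_eq _) ⟨Subgroup.topEquiv⟩

theorem free_sub {K : Type} [Group K] (h : IsFreeGroup K) (S : Subgroup K) : IsFreeGroup S :=
  inferInstance

theorem vsol_inj {K K' : Type} [Group K] [Group K'] (h : VSol K) (f : K' →* K)
    (hf : Function.Injective f) : VSol K' := by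
  obtain ⟨S, h1, h2⟩ := h
  refine ⟨S.comap f, ?_, ?_⟩
  · constructor
    have h3 := Subgroup.instFiniteIndex_subgroupOf S f.range
    rw [Subgroup.index_comap]
    exact h3.index_ne_zero
  · have h3 : Function.Injective (MonoidHom.mk' (fun x : ↥(S.comap f) => (⟨f x, x.2⟩ : S))
        (fun x y => by
          apply Subtype.ext
          show f ((x : K') * (y : K')) = f x * f y
          rw [map_mul])) := by
      intro x y hxy
      exact Subtype.ext (hf (congrArg Subtype.val hxy))
    exact Group.isSolvable_of_isSolvable_injective h3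

theorem locFin_sub {K : Type} [Group K] (h : LocFin K) (S : Subgroup K) : LocFin S := by
  intro E hE
  have h1 := h (Subtype.val '' E) (hE.image _)
  have h2 : (Subgroup.closure E).map S.subtype = Subgroup.closure (Subtype.val '' E) := by
    rw [MonoidHom.map_closure]
    rfl
  rw [← h2] at h1
  exact Finite.of_injective _
    ((Subgroup.closure E).equivMapOfInjective S.subtype S.subtype_injective).injective

theorem hker_kind (hF : ClosedF C) (hsol : ∀ (G : Type) [Group G], Group.IsSolvable G → C G)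
    {K : Type} [Group K] (h : IsFreeGroup K ∨ VSol K ∨ LocFin K) : HKer C K := by
  intro S V _ L _ c hc ⟨e⟩
  have h1 : Kind C S := by
    rcases h with h | h | h
    · exact Or.inl (free_sub h S)
    · exact Or.inr (Or.inl (vsol_inj h S.subtype S.subtype_injective))
    · exact Or.inr (Or.inr (Or.inl (locFin_sub h S)))
  exact Q27.TE.kind_cyc hF hsol L c hc (Kind.equiv hF.base.base e.symm h1)

/-- a homomorphism to a group in the class whose kernel has the property `HKer` -/
theorem sep_main (hC : ClosedE C) {V : Type} [Group V] (L : Subgroup V) [L.Normal] (c : V)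
    (hc : L ⊔ Subgroup.zpowers c = ⊤) (P : Type) [Group P] (hP : C P) (π : V →* P)
    (hk : HKer C ↥(π.ker ⊓ L)) : C V := by
  have hQ := Q27.TE.cyc_quot hC.base L c hc
  have hn : (π.ker ⊓ L).Normal := inferInstance
  refine Pool.Agent.Y529.FJ.t_ext C hC V (π.ker ⊓ L) hk.ker.self ?_ ?_
  · let Ψ : V →* P × (V ⧸ L) := π.prod (QuotientGroup.mk' L)
    have hΨ : ∀ x, Ψ x = 1 ↔ x ∈ π.ker ⊓ L := by
      intro x
      constructor
      · intro h
        exact ⟨congrArg Prod.fst h, (QuotientGroup.eq_one_iff _).1 (congrArg Prod.snd h)⟩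
      · rintro ⟨h1, h2⟩
        exact Prod.ext h1 ((QuotientGroup.eq_one_iff _).2 h2)
    let χ : V ⧸ (π.ker ⊓ L) →* P × (V ⧸ L) :=
      QuotientGroup.lift _ Ψ (fun x hx => (hΨ x).2 hx)
    refine hC.base.of_injective _ _ χ ?_ (hC.base.prod _ _ hP hQ)
    rw [injective_iff_map_eq_one]
    intro y
    induction y using QuotientGroup.induction_on with
    | H x =>
      intro hx
      exact (QuotientGroup.eq_one_iff _).2 ((hΨ x).1 hx)
  · intro g _
    have hg : g ∈ (π.ker ⊓ L) ⊔ Subgroup.zpowers g :=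
      (le_sup_right : _ ≤ (π.ker ⊓ L) ⊔ Subgroup.zpowers g) (Subgroup.mem_zpowers g)
    refine hk.ker _ ((π.ker ⊓ L).subgroupOf ((π.ker ⊓ L) ⊔ Subgroup.zpowers g)) ⟨g, hg⟩ ?_
      ⟨Subgroup.subgroupOfEquivOfLe le_sup_left⟩
    apply Subgroup.map_injective (Subgroup.subtype_injective ((π.ker ⊓ L) ⊔ Subgroup.zpowers g))
    rw [Subgroup.map_sup, Subgroup.map_subgroupOf_eq_of_le le_sup_left, MonoidHom.map_zpowers,
      ← MonoidHom.range_eq_map, Subgroup.range_subtype]
    rfl

/-- the homomorphism to the unrestricted wreath product -/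
theorem uw_hom {V : Type} [Group V] (L : Subgroup V) [L.Normal] (c : V)
    (hc : L ⊔ Subgroup.zpowers c = ⊤) (hinf : ∀ n : ℕ, 0 < n → c ^ n ∉ L) {H : Type} [Group H]
    (φ : L →* H) : ∃ π : V →* UW H, ∀ x : L, π x = 1 → φ x = 1 := by
  have hex : ∀ v : V, ∃ n : ℤ, v * c ^ (-n) ∈ L := by
    intro v
    have hv : v ∈ L ⊔ Subgroup.zpowers c := by rw [hc]; trivial
    obtain ⟨l, hl, z, hz, rfl⟩ := (Subgroup.mem_sup_of_normal_left).1 hv
    obtain ⟨n, rfl⟩ := Subgroup.mem_zpowers_iff.1 hz
    refine ⟨n, ?_⟩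
    rwa [mul_assoc, ← zpow_add, add_neg_cancel, zpow_zero, mul_one]
  have hinf' : ∀ n : ℤ, c ^ n ∈ L → n = 0 := by
    intro n hn
    by_contra h0
    rcases lt_or_gt_of_ne h0 with h | h
    · refine hinf n.natAbs (Int.natAbs_pos.2 h0) ?_
      have h1 : ((n.natAbs : ℕ) : ℤ) = -n := by omega
      rw [← zpow_natCast, h1, zpow_neg]
      exact inv_mem hn
    · refine hinf n.natAbs (Int.natAbs_pos.2 h0) ?_
      have h1 : ((n.natAbs : ℕ) : ℤ) = n := by omega
      rw [← zpow_natCast, h1]
      exact hn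
  choose e he using hex
  have huniq : ∀ (v : V) (n : ℤ), v * c ^ (-n) ∈ L → n = e v := by
    intro v n hn
    have h1 := mul_mem (inv_mem hn) (he v)
    have h2 : (v * c ^ (-n))⁻¹ * (v * c ^ (-(e v))) = c ^ (n - e v) := by
      rw [zpow_sub, zpow_neg, zpow_neg]
      group
    rw [h2] at h1
    have h3 := hinf' _ h1
    omega
  have hconj : ∀ (n : ℤ) (x : V), x ∈ L → c ^ n * x * c ^ (-n) ∈ L := by
    intro n x hx
    have h1 := Subgroup.Normal.conj_mem (inferInstance : L.Normal) x hx (c ^ n)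
    rwa [← zpow_neg] at h1
  have hmul : ∀ v w, e (v * w) = e v + e w := by
    intro v w
    symm
    apply huniq
    have h1 := mul_mem (he v) (hconj (e v) _ (he w))
    have h2 : v * c ^ (-(e v)) * (c ^ (e v) * (w * c ^ (-(e w))) * c ^ (-(e v))) =
        v * w * c ^ (-(e v + e w)) := by
      rw [neg_add, add_comm (-(e v)), zpow_add]
      group
    rwa [h2] at h1
  have hmem : ∀ (v : V) (n : ℤ), c ^ (-n) * v * c ^ (n - e v) ∈ L := by
    intro v n
    have h1 := hconj (-n) _ (he v)
    have h2 : c ^ (-n) * (v * c ^ (-(e v))) * c ^ (-(-n)) = c ^ (-n) * v * c ^ (n - e v) := by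
      rw [neg_neg, sub_eq_add_neg, add_comm n, zpow_add]
      group
    rwa [h2] at h1
  have heL : ∀ x : L, e x = 0 := by
    intro x
    symm
    apply huniq
    rw [neg_zero, zpow_zero, mul_one]
    exact x.2
  refine ⟨MonoidHom.mk' (fun v => (⟨fun n => φ ⟨_, hmem v (Multiplicative.toAdd n)⟩,
    Multiplicative.ofAdd (e v)⟩ : UW H)) ?_, ?_⟩
  · intro v w
    apply SemidirectProduct.ext
    · funext n
      show φ ⟨_, hmem (v * w) (Multiplicative.toAdd n)⟩ =
        φ ⟨_, hmem v (Multiplicative.toAdd n)⟩ *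
        φ ⟨_, hmem w (Multiplicative.toAdd ((Multiplicative.ofAdd (e v))⁻¹ • n))⟩
      rw [← map_mul]
      congr 1
      apply Subtype.ext
      have h5 : Multiplicative.toAdd ((Multiplicative.ofAdd (e v))⁻¹ • n) =
          Multiplicative.toAdd n - e v := by
        rw [smul_eq_mul, toAdd_mul, toAdd_inv, toAdd_ofAdd]
        ring
      show c ^ (-(Multiplicative.toAdd n)) * (v * w) * c ^ (Multiplicative.toAdd n - e (v * w)) =
        (c ^ (-(Multiplicative.toAdd n)) * v * c ^ (Multiplicative.toAdd n - e v)) *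
        (c ^ (-(Multiplicative.toAdd ((Multiplicative.ofAdd (e v))⁻¹ • n))) * w *
          c ^ (Multiplicative.toAdd ((Multiplicative.ofAdd (e v))⁻¹ • n) - e w))
      rw [h5, hmul]
      have h6 : Multiplicative.toAdd n - (e v + e w) = Multiplicative.toAdd n - e v - e w := by ring
      rw [h6, zpow_neg c (Multiplicative.toAdd n - e v)]
      group
    · show Multiplicative.ofAdd (e (v * w)) = Multiplicative.ofAdd (e v) * Multiplicative.ofAdd (e w)
      rw [hmul]
      rfl
  · intro x hx
    have h1 := congrArg (fun z : UW H => z.left 1) hx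
    have h2 : φ ⟨_, hmem (x : V) (Multiplicative.toAdd (1 : Multiplicative ℤ))⟩ = 1 := h1
    rw [← h2]
    congr 1
    apply Subtype.ext
    show (x : V) = c ^ (-(Multiplicative.toAdd (1 : Multiplicative ℤ))) * (x : V) *
      c ^ (Multiplicative.toAdd (1 : Multiplicative ℤ) - e x)
    rw [heL]
    simp

end Q27.HKN
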