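import Pool.Agent.Q27.HKN.UWx

/-!
# Kernels with non-invariant series: the steps
-/

set_option autoImplicit false

namespace Q27.HKN

open Matrix
open Pool.Agent.Y110.FJ (ClosedE)
open Pool.Agent.Y462.SS (Closed)
open Q30.FJ (ClosedOver ClosedF)
open Q181.MCL (VSol UW)
open Q27.TE (LocFin Kind fac Asc)
open Q27.TRC (tr chars)

variable {C D : ∀ (G : Type) [Group G], Prop}

/-- it is enough to consider elements of infinite order modulo the kernel -/
theorem ker_of_inf (hC : ClosedE C) {K : Type} [Group K]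
    (h : ∀ (V : Type) [Group V] (L : Subgroup V) [L.Normal] (c : V), L ⊔ Subgroup.zpowers c = ⊤ →
      (∀ n : ℕ, 0 < n → c ^ n ∉ L) → Nonempty (L ≃* K) → C V) : Ker C K := by
  intro V _ L _ c hc ⟨e⟩
  by_cases hinf : ∀ n : ℕ, 0 < n → c ^ n ∉ L
  · exact h V L c hc hinf ⟨e⟩
  · push Not at hinf
    obtain ⟨k, hk, hck⟩ := hinf
    -- `L` is in the class
    have hL : C L := by
      let W := K × Multiplicative ℤ
      let L' : Subgroup W := Subgroup.prod ⊤ ⊥
      have hn : L'.Normal := Subgroup.prod_normal _ _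
      have h1 : C W := by
        refine h W L' (1, Multiplicative.ofAdd 1) ?_ ?_ ?_
        · rw [eq_top_iff]
          rintro ⟨x, y⟩ _
          have h2 : ((x, y) : W) = (x, 1) * (1, Multiplicative.ofAdd (1 : ℤ)) ^
              (Multiplicative.toAdd y) := by
            apply Prod.ext
            · show x = x * (1 : K) ^ (Multiplicative.toAdd y)
              rw [_root_.one_zpow, mul_one]
            · show y = 1 * (Multiplicative.ofAdd (1 : ℤ)) ^ (Multiplicative.toAdd y)
              rw [one_mul, ← ofAdd_zsmul, smul_eq_mul, mul_one]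
              rfl
          rw [h2]
          exact mul_mem (Subgroup.mem_sup_left ⟨trivial, rfl⟩)
            (Subgroup.mem_sup_right (Subgroup.zpow_mem_zpowers _ _))
        · intro n hn hmem
          have h2 : (Multiplicative.ofAdd (1 : ℤ)) ^ n = 1 := hmem.2
          rw [← ofAdd_nsmul, nsmul_eq_mul, mul_one] at h2
          have h3 : (n : ℤ) = 0 := h2
          omega
        · refine ⟨⟨⟨fun x => x.1.1, fun k => ⟨(k, 1), ⟨trivial, rfl⟩⟩, ?_, ?_⟩, ?_⟩⟩
          · rintro ⟨⟨x, y⟩, hx, hy⟩
            apply Subtype.ext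
            apply Prod.ext
            · rfl
            · exact (show y = 1 from hy).symm
          · intro k
            rfl
          · intro x y
            rfl
      have h2 : C K := hC.base.of_injective _ W (MonoidHom.inl K (Multiplicative ℤ))
        (fun x y hxy => congrArg Prod.fst hxy) h1
      exact Pool.Agent.Y812.SS.C_equiv hC.base e h2
    refine hC.base.finiteIndex V L ?_ hL
    -- finite index
    have h3 : Finite (V ⧸ L) := by
      have h4 : Function.Surjective (fun i : Fin k => ((c ^ (i : ℕ) : V) : V ⧸ L)) := by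
        intro y
        induction y using QuotientGroup.induction_on with
        | H v =>
          have hv : v ∈ L ⊔ Subgroup.zpowers c := by rw [hc]; trivial
          obtain ⟨l, hl, z, hz, rfl⟩ := (Subgroup.mem_sup_of_normal_left).1 hv
          obtain ⟨n, rfl⟩ := Subgroup.mem_zpowers_iff.1 hz
          have hk' : (0 : ℤ) < k := by exact_mod_cast hk
          have h5 : 0 ≤ n % k := Int.emod_nonneg _ hk'.ne'
          have h6 : n % k < k := Int.emod_lt_of_pos _ hk'
          refine ⟨⟨(n % k).toNat, by omega⟩, ?_⟩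
          show ((c ^ (n % k).toNat : V) : V ⧸ L) = ((l * c ^ n : V) : V ⧸ L)
          have h7 : ((c ^ (k : ℕ) : V) : V ⧸ L) = 1 := (QuotientGroup.eq_one_iff _).2 hck
          have h8 : ((l : V) : V ⧸ L) = 1 := (QuotientGroup.eq_one_iff _).2 hl
          rw [QuotientGroup.mk_mul, h8, one_mul, QuotientGroup.mk_zpow, QuotientGroup.mk_pow,
            ← _root_.zpow_natCast, Int.toNat_of_nonneg h5]
          conv_rhs => rw [← Int.emod_add_mul_ediv n k]
          rw [_root_.zpow_add, _root_.zpow_mul, _root_.zpow_natCast, ← QuotientGroup.mk_pow, h7,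
            _root_.one_zpow, mul_one]
      exact Finite.of_surjective _ h4
    exact Subgroup.finiteIndex_of_finite_quotient

theorem hker_step (hC : ClosedE C) (hsol : ∀ (G : Type) [Group G], Group.IsSolvable G → C G)
    {N : Type} [Group N] (F : Subgroup N) [F.Normal] (hF : HKer C F)
    (hQ : VSol (N ⧸ F) ∨ SLF (N ⧸ F)) : HKer C N := by
  have hUW : C (UW (N ⧸ F)) := by
    rcases hQ with h | h
    · exact Q181.MCL.uw_vsol hC hsol _ h
    · exact uw_slf hC hsol _ h
  intro S
  refine ker_of_inf hC ?_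
  intro V _ L _ c hc hinf ⟨e⟩
  let φ : L →* N ⧸ F := ((QuotientGroup.mk' F).comp S.subtype).comp e.toMonoidHom
  obtain ⟨π, hπ⟩ := uw_hom L c hc hinf φ
  refine sep_main hC L c hc (UW (N ⧸ F)) hUW π ?_
  have hm : ∀ x : ↥(π.ker ⊓ L), ((e ⟨x, x.2.2⟩ : S) : N) ∈ F := by
    intro x
    exact (QuotientGroup.eq_one_iff _).1 (hπ ⟨x, x.2.2⟩ x.2.1)
  refine hF.of_inj (MonoidHom.mk' (fun x => (⟨((e ⟨x, x.2.2⟩ : S) : N), hm x⟩ : F)) ?_) ?_
  · intro x y
    apply Subtype.ext
    show ((e ⟨((x * y : ↥(π.ker ⊓ L)) : V), _⟩ : S) : N) = _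
    have h1 : (⟨((x * y : ↥(π.ker ⊓ L)) : V), (x * y).2.2⟩ : L) = ⟨x, x.2.2⟩ * ⟨y, y.2.2⟩ := rfl
    rw [h1, map_mul]
    rfl
  · intro x y hxy
    have h1 : ((e ⟨x, x.2.2⟩ : S) : N) = ((e ⟨y, y.2.2⟩ : S) : N) :=
      congrArg (fun z : F => (z : N)) hxy
    have h2 := e.injective (Subtype.ext h1)
    exact Subtype.ext (congrArg (fun z : L => (z : V)) h2)

theorem hker_fin (hC : ClosedE C) (hsol : ∀ (G : Type) [Group G], Group.IsSolvable G → C G)
    {N : Type} [Group N] (F : Subgroup N) (hfi : F.FiniteIndex) (hF : HKer C F) : HKer C N := by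
  refine hker_step hC hsol F.normalCore (hF.of_inj (Subgroup.inclusion F.normalCore_le)
    (Subgroup.inclusion_injective _)) (Or.inl ⟨⊥, ?_, ?_⟩)
  · exact Subgroup.finiteIndex_of_finite_quotient
  · infer_instance

theorem chars_equiv {M M' : Type} [Group M] [Group M'] (e : M ≃* M') {n : ℕ} {K : Type} [Field K]
    (h : (chars M n K).Finite) : (chars M' n K).Finite := by
  have h1 : chars M' n K ⊆ (fun χ : M → K => fun x => χ (e.symm x)) '' chars M n K := by
    rintro _ ⟨ρ, rfl⟩
    refine ⟨_, ⟨ρ.comp e.toMonoidHom, rfl⟩, ?_⟩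
    funext x
    show tr ρ (e (e.symm x)) = tr ρ x
    rw [e.apply_symm_apply]
  exact (h.image _).subset h1

theorem ker_chars (hC : ClosedE C) (hsol : ∀ (G : Type) [Group G], Group.IsSolvable G → C G)
    (hQQ : ∀ m : ℕ, C (GL (Fin m) ℚ)) {N : Type} [Group N] {n : ℕ} {K : Type} [Field K]
    [IsAlgClosed K] [CharZero K] (ρ : N →* GL (Fin n) K) (hfin : (chars N n K).Finite)
    (hk : HKer C ρ.ker) : Ker C N := by
  intro V _ L _ c hc ⟨e⟩
  have hfin' : (chars L n K).Finite := chars_equiv e.symm hfin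
  obtain ⟨k, hk0, hkk⟩ := Q27.TRC.orbit_of_finite L hfin' (ρ.comp e.toMonoidHom) c
  obtain ⟨P, _, π, hP, hπ⟩ := Q27.TRC.cyc_main hC hsol hQQ L c hc k hk0
    (fun m hm _ => Nat.cast_ne_zero.2 (by omega)) (ρ.comp e.toMonoidHom)
    (Q27.TRC.alg_of_finite hfin' _) hkk
  refine sep_main hC L c hc P hP π ?_
  refine hk.of_inj (MonoidHom.mk' (fun x => (⟨e ⟨x, x.2.2⟩, hπ ⟨x, x.2.2⟩ x.2.1⟩ : ρ.ker)) ?_) ?_
  · intro x y
    apply Subtype.ext
    show e ⟨((x * y : ↥(π.ker ⊓ L)) : V), _⟩ = _
    have h1 : (⟨((x * y : ↥(π.ker ⊓ L)) : V), (x * y).2.2⟩ : L) = ⟨x, x.2.2⟩ * ⟨y, y.2.2⟩ := rfl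
    rw [h1, map_mul]
    rfl
  · intro x y hxy
    have h1 : e ⟨x, x.2.2⟩ = e ⟨y, y.2.2⟩ := congrArg (fun z : ρ.ker => (z : N)) hxy
    exact Subtype.ext (congrArg (fun z : L => (z : V)) (e.injective h1))

/-- factors with the property `Ker` are admissible -/
theorem ker_fac {G : Type} [Group G] (M N : Subgroup G) [M.Normal] [N.Normal]
    (h : Ker C (fac M N)) (g : G) :
    C ↥((N ⊔ Subgroup.zpowers g).map (QuotientGroup.mk' M)) := by
  have hn : (fac M N).Normal := Subgroup.Normal.map inferInstance _ (QuotientGroup.mk'_surjective M)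
  have hle : fac M N ≤ (N ⊔ Subgroup.zpowers g).map (QuotientGroup.mk' M) :=
    Subgroup.map_mono le_sup_left
  have hgm : QuotientGroup.mk' M g ∈ (N ⊔ Subgroup.zpowers g).map (QuotientGroup.mk' M) :=
    ⟨g, (le_sup_right : _ ≤ N ⊔ Subgroup.zpowers g) (Subgroup.mem_zpowers _), rfl⟩
  refine h _ ((fac M N).subgroupOf ((N ⊔ Subgroup.zpowers g).map (QuotientGroup.mk' M)))
    ⟨QuotientGroup.mk' M g, hgm⟩ ?_ ⟨Subgroup.subgroupOfEquivOfLe hle⟩
  apply Subgroup.map_injective (Subgroup.subtype_injective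
    ((N ⊔ Subgroup.zpowers g).map (QuotientGroup.mk' M)))
  rw [Subgroup.map_sup, Subgroup.map_subgroupOf_eq_of_le hle, MonoidHom.map_zpowers,
    ← MonoidHom.range_eq_map, Subgroup.range_subtype]
  exact ((Subgroup.map_sup _ _ _).trans (by rw [MonoidHom.map_zpowers]; rfl)).symm

theorem fac_bot {G : Type} [Group G] (N : Subgroup G) : Nonempty (N ≃* fac (⊥ : Subgroup G) N) := by
  refine ⟨N.equivMapOfInjective (QuotientGroup.mk' (⊥ : Subgroup G)) ?_⟩
  rw [injective_iff_map_eq_one]
  intro x hx
  exact Subgroup.mem_bot.1 ((QuotientGroup.eq_one_iff _).1 hx)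

/-- **kernels with the property `Ker`** -/
theorem ker_over (hC : ClosedE C) (hD : ClosedOver C D) {G : Type} [Group G] (N : Subgroup G)
    [N.Normal] (h : Ker C N) (hQ : D (G ⧸ N)) : D G := by
  obtain ⟨e⟩ := fac_bot N
  have h1 : Asc C N := Asc.step ⊥ N Asc.bot bot_le (ker_fac ⊥ N (h.equiv e))
  exact h1.over hC hD hQ

/-- The groups with a series, each term of which is normal in the next one or of finite index in it,
which starts with a free, a virtually solvable or a locally finite group, and the quotients of which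
are virtually solvable or satisfy `SLF`; the class is closed under subgroups. -/
inductive Ser : (K : Type) → [Group K] → Prop
  | free (K : Type) [Group K] : IsFreeGroup K → Ser K
  | vsol (K : Type) [Group K] : VSol K → Ser K
  | locFin (K : Type) [Group K] : LocFin K → Ser K
  | sub (K : Type) [Group K] (L : Subgroup K) : Ser K → Ser L
  | step (K : Type) [Group K] (F : Subgroup K) [F.Normal] : Ser F →
      (VSol (K ⧸ F) ∨ SLF (K ⧸ F)) → Ser K
  | finite (K : Type) [Group K] (F : Subgroup K) : Ser F → F.FiniteIndex → Ser K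

theorem Ser.hker (hF : ClosedF C) (hsol : ∀ (G : Type) [Group G], Group.IsSolvable G → C G)
    {K : Type} [hg : Group K] (h : Ser K) : HKer C K := by
  induction h with
  | free K h => exact hker_kind hF hsol (Or.inl h)
  | vsol K h => exact hker_kind hF hsol (Or.inr (Or.inl h))
  | locFin K h => exact hker_kind hF hsol (Or.inr (Or.inr h))
  | sub K L _ ih => exact ih.of_inj L.subtype L.subtype_injective
  | step K F _ hQ ih => exact hker_step hF.base hsol F ih hQ
  | finite K F _ hfi ih => exact hker_fin hF.base hsol F hfi ih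

/-- The normal subgroups of `G` reached from the trivial subgroup by extensions by normal factors in
`Ser`, and by directed unions. -/
inductive ASer {G : Type} [Group G] : Subgroup G → Prop
  | bot : ASer ⊥
  | step (M N : Subgroup G) [M.Normal] [N.Normal] : ASer M → M ≤ N → Ser (fac M N) → ASer N
  | union (S : Set (Subgroup G)) : S.Nonempty → DirectedOn (· ≤ ·) S →
      (∀ M ∈ S, ASer M) → ASer (sSup S)

theorem ASer.normal {G : Type} [Group G] {N : Subgroup G} (h : ASer N) : N.Normal := by
  induction h with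
  | bot => infer_instance
  | step M N _ _ _ _ => infer_instance
  | union S hS hd _ ih => exact Q27.TE.sSup_normal S hS hd ih

theorem ASer.asc (hF : ClosedF C) (hsol : ∀ (G : Type) [Group G], Group.IsSolvable G → C G)
    {G : Type} [Group G] {N : Subgroup G} (h : ASer N) : Asc C N := by
  induction h with
  | bot => exact Asc.bot
  | step M N hM hMN hfac ih => exact Asc.step M N ih hMN (ker_fac M N (hfac.hker hF hsol).ker)
  | union S hS hd hSA ih => exact Asc.union S hS hd ih

theorem main_ser (hF : ClosedF C) (hD : ClosedOver C D)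
    (hsol : ∀ (G : Type) [Group G], Group.IsSolvable G → C G) {G : Type} [Group G]
    (N : Subgroup G) [N.Normal] (h : Ser N) (hQ : D (G ⧸ N)) : D G :=
  ker_over hF.base hD N (h.hker hF hsol).ker hQ

theorem main_aser (hF : ClosedF C) (hD : ClosedOver C D)
    (hsol : ∀ (G : Type) [Group G], Group.IsSolvable G → C G) {G : Type} [Group G]
    (N : Subgroup G) [N.Normal] (h : ASer N) (hQ : D (G ⧸ N)) : D G :=
  (h.asc hF hsol).over hF.base hD hQ

theorem main_chars (hF : ClosedF C) (hD : ClosedOver C D)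
    (hsol : ∀ (G : Type) [Group G], Group.IsSolvable G → C G)
    (hQQ : ∀ m : ℕ, C (GL (Fin m) ℚ)) {G : Type} [Group G]
    (N : Subgroup G) [N.Normal] {n : ℕ} {K : Type} [Field K] [IsAlgClosed K] [CharZero K]
    (ρ : N →* GL (Fin n) K) (hfin : (chars N n K).Finite) (hk : Ser ρ.ker)
    (hQ : D (G ⧸ N)) : D G :=
  ker_over hF.base hD N (ker_chars hF.base hsol hQQ ρ hfin (hk.hker hF hsol)) hQ

end Q27.HKN
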