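import Pool.Agent.Q27.HKN.Base

/-!
# Unrestricted wreath products with the infinite cyclic group
-/

set_option autoImplicit false

namespace Q27.HKN

open Pool.Agent.Y110.FJ (ClosedE)
open Q181.MCL (VSol UW uwMap)
open Q27.TE (LocFin)

variable {C D : ∀ (G : Type) [Group G], Prop}

theorem uw_ext (hC : ClosedE C) (hsol : ∀ (G : Type) [Group G], Group.IsSolvable G → C G)
    (H : Type) [Group H] (S : Subgroup H) [S.Normal] (hS : Group.IsSolvable S)
    (h : C (UW (H ⧸ S))) : C (UW H) := by
  let q : H →* H ⧸ S := QuotientGroup.mk' S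
  refine Q181.MCL.ext_sol hC hsol (uwMap q) ?_ h
  have h1 : Group.IsSolvable (Multiplicative ℤ → S) := Q181.MCL.pi_solvable _ _
  have h2 : ∀ p : (uwMap q).ker, p.1.right = 1 ∧ ∀ n, p.1.left n ∈ S := by
    rintro ⟨p, hp⟩
    have h3 : uwMap q p = 1 := hp
    refine ⟨congrArg (fun z : UW (H ⧸ S) => z.right) h3, fun n => ?_⟩
    have h4 : q (p.left n) = 1 := congrArg (fun z : UW (H ⧸ S) => z.left n) h3
    exact (QuotientGroup.eq_one_iff _).1 h4
  refine Group.isSolvable_of_isSolvable_injective (f := (MonoidHom.mk' (fun p : (uwMap q).ker =>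
    (fun n => ⟨p.1.left n, (h2 p).2 n⟩ : Multiplicative ℤ → S)) ?_)) ?_
  · intro p r
    funext n
    apply Subtype.ext
    show (p.1 * r.1).left n = p.1.left n * r.1.left n
    have h3 : (p.1 * r.1).left n = p.1.left n * r.1.left ((p.1.right)⁻¹ * n) := rfl
    rw [h3, (h2 p).1, inv_one, one_mul]
  · intro p r hpr
    apply Subtype.ext
    apply SemidirectProduct.ext
    · funext n
      exact congrArg Subtype.val (congrFun hpr n)
    · rw [(h2 p).1, (h2 r).1]

theorem uw_lf (hC : ClosedE C) (F : Type) [Group F] (hF : LocFin (Multiplicative ℤ → F)) :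
    C (UW F) := by
  let ρ : UW F →* Multiplicative ℤ := SemidirectProduct.rightHom
  refine Q30.FJ.loc_fin hC (UW F) ρ.ker ?_
    (hC.base.of_injective _ _ (QuotientGroup.kerLift ρ) (QuotientGroup.kerLift_injective ρ)
      hC.base.int)
  intro E hE hEN
  have hfin := hF ((fun x : UW F => x.left) '' E) (hE.image _)
  have hsub : Subgroup.closure E ≤
      (Subgroup.closure ((fun x : UW F => x.left) '' E)).map SemidirectProduct.inl := by
    rw [MonoidHom.map_closure, Subgroup.closure_le]
    intro x hx
    refine Subgroup.subset_closure ⟨x.left, ⟨x, hx, rfl⟩, ?_⟩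
    have h1 : x.right = 1 := hEN hx
    conv_rhs => rw [← SemidirectProduct.inl_left_mul_inr_right x]
    rw [h1, map_one, mul_one]
  have hfin2 : Finite ↥((Subgroup.closure ((fun x : UW F => x.left) '' E)).map
      (SemidirectProduct.inl : (Multiplicative ℤ → F) →* UW F)) :=
    Finite.of_surjective _ (MonoidHom.subgroupMap_surjective _ _)
  exact Finite.of_injective (Subgroup.inclusion hsub) (Subgroup.inclusion_injective hsub)

/-- solvable by a group all finitely generated subgroups of the powers of which are finite -/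
def SLF (H : Type) [Group H] : Prop := ∃ (S : Subgroup H) (_ : S.Normal), Group.IsSolvable S ∧
  LocFin (Multiplicative ℤ → H ⧸ S)

theorem uw_slf (hC : ClosedE C) (hsol : ∀ (G : Type) [Group G], Group.IsSolvable G → C G)
    (H : Type) [Group H] (h : SLF H) : C (UW H) := by
  obtain ⟨S, hSn, hS, hF⟩ := h
  exact uw_ext hC hsol H S hS (uw_lf hC _ hF)

end Q27.HKN
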